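import Mathlib

set_option autoImplicit false

noncomputable section

namespace Pool.Agent.Results.MP_eb0abf_al.Cex

open CategoryTheory

section Defs
variable (k : Type) [Field k] {V A : Type} [Fintype V] [DecidableEq V] (s t : A → V)

/-- The relations presenting the path algebra of the quiver with vertices V, arrows A, source s
and target t. -/
inductive Rel : FreeAlgebra k (V ⊕ A) → FreeAlgebra k (V ⊕ A) → Prop
  | idem (v w : V) : Rel (.ι k (.inl v) * .ι k (.inl w)) (if v = w then .ι k (.inl v) else 0)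
  | one : Rel (∑ v, .ι k (.inl v)) 1
  | arr (a : A) : Rel (.ι k (.inl (t a)) * .ι k (.inr a) * .ι k (.inl (s a))) (.ι k (.inr a))

/-- The path algebra kQ. -/
def PathAlg : Type := RingQuot (Rel k s t)

instance : Ring (PathAlg k s t) := (inferInstance : Ring (RingQuot (Rel k s t)))
instance : Algebra k (PathAlg k s t) := (inferInstance : Algebra k (RingQuot (Rel k s t)))

/-- A vertex (trivial path) or an arrow, as an element of kQ. -/
def gen (g : V ⊕ A) : PathAlg k s t := RingQuot.mkAlgHom k (Rel k s t) (.ι k g)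

/-- The m-th power of the arrow ideal: the ideal generated by all products of m arrows. -/
def radPow (m : ℕ) : TwoSidedIdeal (PathAlg k s t) :=
  .span {p | ∃ l : List A, l.length = m ∧ p = (l.map fun a => gen k s t (.inr a)).prod}

variable {k s t} (I : TwoSidedIdeal (PathAlg k s t))

/-- I lies between the m-th and the second power of the arrow ideal, for some m ≥ 2. -/
def Admissible : Prop := ∃ m ≥ 2, radPow k s t m ≤ I ∧ I ≤ radPow k s t 2

/-- The algebra kQ/I. -/
def Lam : Type := I.ringCon.Quotient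

instance : Ring (Lam I) := (inferInstance : Ring I.ringCon.Quotient)

/-- The class in kQ/I of a vertex or an arrow. -/
def cls (g : V ⊕ A) : Lam I := I.ringCon.mk' (gen k s t g)

end Defs

/-- The left ideal generated by e, modulo its intersection with the two-sided ideal generated by
the set T. -/
def top {L : Type} [Ring L] (e : L) (T : Set L) : ModuleCat.{0} L :=
  .of L (Ideal.span {e} ⧸ Submodule.comap (Ideal.span {e}).subtype (TwoSidedIdeal.span T).asIdeal)

/-- The simple module S_x: P_x modulo its intersection with the arrow ideal. -/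
def S {k : Type} [Field k] {V A : Type} [Fintype V] [DecidableEq V] {s t : A → V}
    (I : TwoSidedIdeal (PathAlg k s t)) (x : V) : ModuleCat.{0} (Lam I) :=
  top (cls I (.inl x)) (Set.range fun a => cls I (.inr a))

/-- N is the first syzygy of M: the kernel of a projective cover of M. -/
def IsSyz {L : Type} [Ring L] (M N : ModuleCat.{0} L) : Prop :=
  ∃ (Q : ModuleCat.{0} L) (π : Q →ₗ[L] M), Module.Projective L Q ∧ Function.Surjective π ∧
    (∀ W : Submodule L Q, W ⊔ LinearMap.ker π = ⊤ → W = ⊤) ∧ Nonempty (LinearMap.ker π ≃ₗ[L] N)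

theorem pd_top {L : Type} [Ring L] (Ω : ℕ → ModuleCat.{0} L) (h : ∀ n, IsSyz (Ω n) (Ω (n + 1)))
    (h0 : ∀ n, Nontrivial (Ω (n + 1))) : projectiveDimension (Ω 0) = ⊤ := by
  have key : ∀ n m, ¬HasProjectiveDimensionLT (Ω m) (n + 1) := fun n => by
    induction n with
    | zero =>
      intro m a
      obtain ⟨Q, π, -, b, c, ⟨e⟩⟩ := h m
      have := projective_iff_hasProjectiveDimensionLT_one.2 a
      obtain ⟨σ, hσ⟩ := Module.projective_lifting_property π LinearMap.id b
      have d : LinearMap.range σ = ⊤ := c _ (eq_top_iff.2 fun u _ => Submodule.mem_sup.2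
        ⟨σ (π u), ⟨_, rfl⟩, u - σ (π u), by
          simp [show π (σ (π u)) = π u from LinearMap.congr_fun hσ _], by simp⟩)
      have := h0 m
      obtain ⟨u, hu⟩ := exists_ne (0 : Ω (m + 1))
      obtain ⟨v, hv⟩ := d.ge (Submodule.mem_top (x := (e.symm u).1))
      have f : v = 0 := (LinearMap.congr_fun hσ v).symm.trans ((congrArg π hv).trans (e.symm u).2)
      exact hu (e.symm.injective (Subtype.ext (by simp [← hv, f])))
    | succ n ih =>
      intro m a
      obtain ⟨Q, π, _, b, -, ⟨e⟩⟩ := h m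
      have := (ModuleCat.shortComplex_shortExact (ModuleCat.shortComplexOfCompEqZero
        (LinearMap.ker π).subtype π (by ext; simp)) (LinearMap.exact_subtype_ker_map π)
        Subtype.val_injective b).hasProjectiveDimensionLT_X₁ (n + 1) inferInstance a
      exact ih (m + 1) (hasProjectiveDimensionLT_of_iso e.toModuleIso _)
  by_contra a
  obtain ⟨n, hn⟩ := (projectiveDimension_ne_top_iff _).1 a
  exact key n 0 hn

theorem cover {L : Type} [Ring L] {f h : L} (hf : f * f = f) (M : ModuleCat.{0} L)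
    (π : Ideal.span {f} →ₗ[L] M) (hπ : Function.Surjective π)
    (hk : ∀ u, π u = 0 ↔ u.1 ∈ Ideal.span {h}) (hh : h * f = h) (hn : ∀ u, h * (u * h) = 0) :
    IsSyz M (.of L (Ideal.span {h})) := by
  have a : ∀ u : Ideal.span {f}, u.1 * f = u := fun ⟨u, hu⟩ => by
    obtain ⟨v, rfl⟩ := Ideal.mem_span_singleton'.1 hu
    simp [mul_assoc, hf]
  have b : Ideal.span {h} ≤ Ideal.span {f} :=
    (Ideal.span_singleton_le_iff_mem _).2 (Ideal.mem_span_singleton'.2 ⟨h, hh⟩)
  let F : Ideal.span {f} := ⟨f, Ideal.mem_span_singleton_self f⟩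
  refine ⟨.of L (Ideal.span {f}), π, .of_split (Ideal.span {f}).subtype
    (LinearMap.toSpanSingleton L _ F) (by ext u; exact a u), hπ, fun W hW => ?_,
    ⟨(LinearEquiv.ofEq _ _ (Submodule.ext hk)).trans (Submodule.comapSubtypeEquivOfLe b)⟩⟩
  obtain ⟨n, hn', j, hj, e⟩ := Submodule.mem_sup.1 (hW.ge (Submodule.mem_top (x := F)))
  obtain ⟨u, hu⟩ := Ideal.mem_span_singleton'.1 ((hk j).1 hj)
  have c : F = (1 + j.1) • n := Subtype.ext (by
    rw [← eq_sub_iff_add_eq] at e
    have : j.1 * j.1 = 0 := by rw [← hu, mul_assoc, hn, mul_zero]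
    simp [e, F, add_mul, mul_sub, a j, this])
  refine eq_top_iff.2 fun v _ => ?_
  rw [show v = v.1 • F from Subtype.ext (a v).symm, c]
  exact W.smul_mem _ (W.smul_mem _ hn')

variable (k : Type) [Field k]

def s : Fin 4 → Fin 3 := ![0, 1, 1, 2]
def t : Fin 4 → Fin 3 := ![1, 1, 2, 0]

def I : TwoSidedIdeal (PathAlg k s t) := .span {gen k s t (.inr 1) * gen k s t (.inr 1),
  gen k s t (.inr 3) * gen k s t (.inr 2), gen k s t (.inr 1) * gen k s t (.inr 0)}

def mkP : FreeAlgebra k (Fin 3 ⊕ Fin 4) →ₐ[k] PathAlg k s t := RingQuot.mkAlgHom k _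

variable {k}

theorem mkP_rel {a b : FreeAlgebra k (Fin 3 ⊕ Fin 4)} (h : Rel k s t a b) : mkP k a = mkP k b :=
  RingQuot.mkAlgHom_rel k h

theorem gen_eq (g : Fin 3 ⊕ Fin 4) : gen k s t g = mkP k (.ι k g) := rfl

theorem g_idem (v w : Fin 3) : gen k s t (.inl v) * gen k s t (.inl w) =
    if v = w then gen k s t (.inl v) else 0 := by
  simpa [gen_eq, apply_ite] using mkP_rel (.idem v w)

theorem g_arr (a : Fin 4) : gen k s t (.inl (t a)) * gen k s t (.inr a) * gen k s t (.inl (s a)) =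
    gen k s t (.inr a) := by
  simpa [gen_eq] using mkP_rel (.arr a)

theorem g_va (v : Fin 3) (a : Fin 4) : gen k s t (.inl v) * gen k s t (.inr a) =
    if v = t a then gen k s t (.inr a) else 0 := by
  rw [← g_arr, ← mul_assoc, ← mul_assoc, g_idem]
  split_ifs with h <;> simp [h]

theorem g_av (v : Fin 3) (a : Fin 4) : gen k s t (.inr a) * gen k s t (.inl v) =
    if s a = v then gen k s t (.inr a) else 0 := by
  rw [← g_arr, mul_assoc, g_idem]
  split_ifs with h <;> simp

theorem bad (a b : Fin 4) (h : (a, b) ∉ ({(0, 3), (2, 0), (2, 1)} : Finset _)) :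
    gen k s t (.inr a) * gen k s t (.inr b) ∈ I k := by
  by_cases e : s a = t b
  · refine TwoSidedIdeal.subset_span ?_
    obtain ⟨rfl, rfl⟩ | ⟨rfl, rfl⟩ | ⟨rfl, rfl⟩ :
      (a = 1 ∧ b = 1) ∨ (a = 3 ∧ b = 2) ∨ (a = 1 ∧ b = 0) := by revert a b; decide
    all_goals simp
  · have := g_av (k := k) (s a) a
    rw [if_pos rfl] at this
    rw [← this, mul_assoc, g_va, if_neg e, mul_zero]
    exact zero_mem _

theorem adm : Admissible (I k) := by
  refine ⟨4, by norm_num, TwoSidedIdeal.span_le.2 ?_, TwoSidedIdeal.span_mono ?_⟩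
  · rintro _ ⟨l, h, rfl⟩
    obtain ⟨a, b, c, d, rfl⟩ := List.length_eq_four.1 h
    simp only [List.map, List.prod_cons, List.prod_nil, mul_one, SetLike.mem_coe]
    by_cases h1 : (a, b) ∈ ({(0, 3), (2, 0), (2, 1)} : Finset _)
    · refine (I k).mul_mem_left _ _ ?_
      by_cases h2 : (b, c) ∈ ({(0, 3), (2, 0), (2, 1)} : Finset _)
      · exact (I k).mul_mem_left _ _ (bad c d (by revert a b c d; decide))
      · exact mul_assoc (gen k s t _) _ _ ▸ (I k).mul_mem_right _ _ (bad b c h2)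
    · exact mul_assoc (gen k s t _) _ _ ▸ (I k).mul_mem_right _ _ (bad a b h1)
  · rintro _ (rfl | rfl | rfl)
    exacts [⟨[1, 1], rfl, by simp⟩, ⟨[3, 2], rfl, by simp⟩, ⟨[1, 0], rfl, by simp⟩]

structure Good (k : Type) [Field k] {L : Type} [Ring L] [Algebra k L] (c : Fin 3 ⊕ Fin 4 → L) :
    Prop where
  vv : ∀ v w, c (.inl v) * c (.inl w) = if v = w then c (.inl v) else 0
  va : ∀ v a, c (.inl v) * c (.inr a) = if v = t a then c (.inr a) else 0
  av : ∀ v a, c (.inr a) * c (.inl v) = if s a = v then c (.inr a) else 0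
  aa : ∀ a b, (a, b) ∉ ({(0, 3), (2, 0), (2, 1)} : Finset _) → c (.inr a) * c (.inr b) = 0
  ind : ∀ W : Submodule k L, (∀ g, ∀ w ∈ W, c g * w ∈ W) → ∀ u, ∀ w ∈ W, u * w ∈ W
  rep : ∀ (B : Type) [Ring B] [Algebra k B] (f : Fin 3 ⊕ Fin 4 → B),
    (∀ v w, f (.inl v) * f (.inl w) = if v = w then f (.inl v) else 0) → ∑ v, f (.inl v) = 1 →
    (∀ a, f (.inl (t a)) * f (.inr a) * f (.inl (s a)) = f (.inr a)) →
    f (.inr 1) * f (.inr 1) = 0 ∧ f (.inr 3) * f (.inr 2) = 0 ∧ f (.inr 1) * f (.inr 0) = 0 →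
    ∃ ρ : L →ₐ[k] B, ∀ g, ρ (c g) = f g

instance : Algebra k (Lam (I k)) := (inferInstance : Algebra k (I k).ringCon.Quotient)

theorem good : Good k (cls (I k)) := by
  have m : ∀ a b, cls (I k) a * cls (I k) b = (I k).ringCon.mk' (gen k s t a * gen k s t b) :=
    fun _ _ => rfl
  refine ⟨fun v w => ?_, fun v a => ?_, fun v a => ?_, fun a b h => ?_, fun W h u => ?_,
    fun B _ _ f h1 h2 h3 h4 => ?_⟩
  · rw [m, g_idem]; split_ifs <;> rfl
  · rw [m, g_va]; split_ifs <;> rfl
  · rw [m, g_av]; split_ifs <;> rfl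
  · exact (TwoSidedIdeal.mem_ker _).1 ((TwoSidedIdeal.ker_ringCon_mk' (I k)).ge (bad a b h))
  · let q : PathAlg k s t →ₐ[k] Lam (I k) := (I k).ringCon.mkₐ k
    obtain ⟨u, rfl⟩ : ∃ v, q v = u := (I k).ringCon.mkₐ_surjective (α := k) u
    obtain ⟨u, rfl⟩ : ∃ v, mkP k v = u := RingQuot.mkAlgHom_surjective k _ u
    induction u using FreeAlgebra.induction with
    | grade0 r => intro w hw; simpa [← Algebra.smul_def] using W.smul_mem r hw
    | grade1 g => exact h g
    | mul a b ha hb => intro w hw; simpa only [map_mul, mul_assoc] using ha _ (hb w hw)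
    | add a b ha hb => intro w hw; simpa only [map_add, add_mul] using W.add_mem (ha w hw) (hb w hw)
  · let φ : PathAlg k s t →ₐ[k] B := RingQuot.liftAlgHom k (s := Rel k s t) ⟨FreeAlgebra.lift k f, by
      rintro _ _ (⟨v, w⟩ | _ | a)
      · by_cases e : v = w <;> simp [h1, e]
      all_goals simp [h2, h3]⟩
    have a : ∀ g, φ (gen k s t g) = f g := fun g =>
      (RingQuot.liftAlgHom_mkAlgHom_apply k _ _ _).trans (by simp)
    have b : I k ≤ TwoSidedIdeal.ker φ := TwoSidedIdeal.span_le.2 (by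
      rintro _ (rfl | rfl | rfl) <;> simp [TwoSidedIdeal.mem_ker, a, h4])
    exact ⟨(I k).ringCon.liftₐ φ (TwoSidedIdeal.ringCon_le_iff.1 b), a⟩

section
variable {L : Type} [Ring L] [Algebra k L] {c : Fin 3 ⊕ Fin 4 → L} (G : Good k c)
include G

theorem mul_ar (a : Fin 4) (ha : a = 0 ∨ a = 1) (u : L) : ∃ x y : k,
    u * c (.inr a) = x • c (.inr a) + y • (c (.inr 2) * c (.inr a)) := by
  have := G.ind (.span k {c (.inr a), c (.inr 2) * c (.inr a)})
    (fun g w hw => by
      obtain ⟨x, y, rfl⟩ := Submodule.mem_span_pair.1 hw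
      rw [mul_add, mul_smul_comm, mul_smul_comm, ← mul_assoc]
      refine add_mem (Submodule.smul_mem _ _ ?_) (Submodule.smul_mem _ _ ?_) <;>
        rcases ha with rfl | rfl <;> rcases g with g | g <;> fin_cases g <;>
        simp [G.va, G.aa, t, Submodule.mem_span_of_mem]) u _ (Submodule.subset_span (Or.inl rfl))
  obtain ⟨x, y, e⟩ := Submodule.mem_span_pair.1 this
  exact ⟨x, y, e.symm⟩

theorem mul_e (v : Fin 3) (a : Fin 4) (ha : (v, a) = (0, 0) ∨ (v, a) = (1, 1)) (u : L) :
    ∃ (x y : k) (w : L), u * c (.inl v) = x • c (.inl v) +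
      y • (c (.inr 2) * c (.inl v)) + w * c (.inr a) := by
  have := G.ind (.span k {c (.inl v), c (.inr 2) * c (.inl v)} ⊔
    (Ideal.span {c (.inr a)}).restrictScalars k) (fun g w hw => by
      obtain ⟨_, h, w, hw', rfl⟩ := Submodule.mem_sup.1 hw
      obtain ⟨x, y, rfl⟩ := Submodule.mem_span_pair.1 h
      rw [mul_add, mul_add, mul_smul_comm, mul_smul_comm, ← mul_assoc]
      refine add_mem (add_mem (Submodule.smul_mem _ _ ?_) (Submodule.smul_mem _ _ ?_))
        (Submodule.mem_sup_right (Ideal.mul_mem_left _ _ hw')) <;>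
        rcases ha with h | h <;> cases h <;> rcases g with g | g <;> fin_cases g <;>
        simp [G.vv, G.va, G.av, G.aa, s, t] <;>
        first | exact Submodule.mem_sup_right (Ideal.mem_span_singleton_self _) |
          exact Submodule.mem_sup_left (Submodule.subset_span (by simp)))
    u _ (Submodule.mem_sup_left (Submodule.subset_span (Or.inl rfl)))
  obtain ⟨_, h, w, hw, e⟩ := Submodule.mem_sup.1 this
  obtain ⟨x, y, rfl⟩ := Submodule.mem_span_pair.1 h
  obtain ⟨w, rfl⟩ := Ideal.mem_span_singleton'.1 hw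
  exact ⟨x, y, w, e.symm⟩

theorem indep (a : Fin 4) (ha : a = 0 ∨ a = 1) (x y : k)
    (h : x • c (.inr a) + y • (c (.inr 2) * c (.inr a)) = 0) :
    x = 0 ∧ y = 0 := by
  obtain ⟨ρ, hρ⟩ := G.rep (Matrix (Fin 4) (Fin 4) k) (Sum.elim
    ![.single 0 0 1, .single 1 1 1 + .single 2 2 1, .single 3 3 1]
    ![.single 2 0 1, .single 2 1 1, .single 3 2 1, 0])
    (fun v w => by fin_cases v <;> fin_cases w <;> simp [add_mul, mul_add])
    (by ext i j; fin_cases i <;> fin_cases j <;> simp [Fin.sum_univ_three])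
    (fun a => by fin_cases a <;> simp [s, t, add_mul, mul_add]) (by simp)
  have := congrArg ρ h
  simp only [map_add, map_smul, map_mul, hρ, map_zero] at this
  rcases ha with rfl | rfl
  · exact ⟨by simpa using congrFun₂ this 2 0, by simpa using congrFun₂ this 3 0⟩
  · exact ⟨by simpa using congrFun₂ this 2 1, by simpa using congrFun₂ this 3 1⟩

theorem syz (a : Fin 4) (ha : a = 0 ∨ a = 1) : IsSyz (.of L (Ideal.span {c (.inr a)}))
    (.of L (Ideal.span {c (.inr 1)})) := by
  have e : c (.inl 1) * c (.inr a) = c (.inr a) := by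
    rcases ha with rfl | rfl <;> simp [G.va, t]
  have e' : c (.inr 1) * c (.inr a) = 0 := G.aa _ _ (by rcases ha with rfl | rfl <;> decide)
  refine cover (f := c (.inl 1)) (by simp [G.vv]) _ ((LinearMap.toSpanSingleton _ _
    ⟨_, Ideal.mem_span_singleton_self _⟩).comp (Submodule.subtype _)) (fun ⟨w, hw⟩ => ?_)
    (fun ⟨w, hw⟩ => ?_) (by simp [G.av, s]) fun u => ?_
  · obtain ⟨u, rfl⟩ := Ideal.mem_span_singleton'.1 hw
    exact ⟨⟨_, Ideal.mem_span_singleton'.2 ⟨u, rfl⟩⟩, Subtype.ext (by simp [mul_assoc, e])⟩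
  · obtain ⟨u, rfl⟩ := Ideal.mem_span_singleton'.1 hw
    rw [Subtype.ext_iff, Ideal.mem_span_singleton']
    refine ⟨fun h => ?_, fun ⟨v, h⟩ => show u * c (.inl 1) * c (.inr a) = 0 by
      rw [show u * c (.inl 1) = _ from h.symm, mul_assoc, e', mul_zero]⟩
    obtain ⟨x, y, w, f⟩ := mul_e G 1 1 (Or.inr rfl) u
    obtain ⟨rfl, rfl⟩ := indep G a ha x y (by simpa [f, add_mul, mul_assoc, e, e'] using h)
    exact ⟨w, by simp [f]⟩
  · obtain ⟨x, y, f⟩ := mul_ar G 1 (Or.inr rfl) u
    simp [f, mul_add, ← mul_assoc, G.aa]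

theorem e_zero (a : Fin 4) (ha : a = 0 ∨ a = 1) (u : L) :
    c (.inl 0) * (u * c (.inr a)) = 0 := by
  obtain ⟨x, y, f⟩ := mul_ar G a ha u
  rcases ha with rfl | rfl <;> simp [f, mul_add, ← mul_assoc, G.va, t]

theorem syz0 : IsSyz (top (c (.inl 0)) (Set.range fun a => c (.inr a)))
    (.of L (Ideal.span {c (.inr 0)})) := by
  obtain ⟨χ, hχ⟩ := G.rep k (Sum.elim ![1, 0, 0] 0)
    (fun v w => by fin_cases v <;> fin_cases w <;> simp) (by simp [Fin.sum_univ_three])
    (by simp) (by simp)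
  refine cover (by simp [G.vv]) _ (Submodule.mkQ _) (Submodule.mkQ_surjective _)
    (fun ⟨w, hw⟩ => ?_) (by simp [G.av, s]) fun u => ?_
  · refine (Submodule.Quotient.mk_eq_zero _).trans ?_
    rw [Submodule.mem_comap, TwoSidedIdeal.mem_asIdeal, Ideal.mem_span_singleton']
    refine ⟨fun h => ?_, fun ⟨v, h⟩ => ?_⟩
    · obtain ⟨u, rfl⟩ := Ideal.mem_span_singleton'.1 hw
      obtain ⟨x, y, w, f⟩ := mul_e G 0 0 (Or.inl rfl) u
      have := TwoSidedIdeal.span_le (I := TwoSidedIdeal.ker χ) |>.2 (by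
        rintro _ ⟨a, rfl⟩; simp [TwoSidedIdeal.mem_ker, hχ]) h
      obtain rfl : x = 0 := by simpa [TwoSidedIdeal.mem_ker, f, hχ] using this
      exact ⟨w, by simp [f, G.av, s]⟩
    · obtain rfl : v * c (.inr 0) = w := h
      exact TwoSidedIdeal.mul_mem_left _ _ _ (TwoSidedIdeal.subset_span ⟨0, rfl⟩)
  · rw [← (G.av 0 0).trans (if_pos rfl), mul_assoc, (G.av 0 0).trans (if_pos rfl),
      e_zero G 0 (Or.inl rfl), mul_zero]

end

theorem result (k : Type) [Field k] : ∃ (V A : Type) (_ : Fintype V) (_ : DecidableEq V)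
    (_ : Finite A) (s t : A → V) (I : TwoSidedIdeal (PathAlg k s t)) (x : V)
    (Ω : ℕ → ModuleCat.{0} (Lam I)),
    (∀ v w, Relation.ReflTransGen (fun v w => ∃ a, s a = v ∧ t a = w) v w) ∧ Admissible I ∧
    projectiveDimension (S I x) = ⊤ ∧ Ω 0 = S I x ∧
    (∀ n, IsSyz (Ω n) (Ω (n + 1))) ∧ ∀ n ≥ 1, ∀ m : Ω n, cls I (.inl x) • m = 0 := by
  let Ω : ℕ → ModuleCat.{0} (Lam (I k)) := fun n => match n with
    | 0 => S (I k) 0
    | n + 1 => .of _ (Ideal.span {cls (I k) (.inr (if n = 0 then 0 else 1))})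
  have h : ∀ n, IsSyz (Ω n) (Ω (n + 1)) := by
    rintro (_ | n)
    exacts [syz0 good, syz good _ (by split_ifs <;> simp)]
  refine ⟨Fin 3, Fin 4, inferInstance, inferInstance, inferInstance, s, t, I k, 0, Ω, ?_, adm,
    pd_top Ω h fun n => ⟨⟨_, Ideal.mem_span_singleton_self _⟩, 0, fun e => ?_⟩, rfl, h, ?_⟩
  · have a : ∀ v : Fin 3, Relation.ReflTransGen (fun v w => ∃ a, s a = v ∧ t a = w) v (v + 1) :=
      fun v => .single (by revert v; decide)
    intro v w
    obtain rfl | rfl | rfl : w = v ∨ w = v + 1 ∨ w = v + 1 + 1 := by revert v w; decide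
    exacts [.refl, a v, (a v).trans (a _)]
  · exact one_ne_zero (indep (k := k) good (if n = 0 then 0 else 1) (by split_ifs <;> simp) 1 0
      (by simpa using congrArg Subtype.val e)).1
  · rintro (_ | n) hn
    · omega
    · rintro ⟨m, hm⟩
      obtain ⟨u, rfl⟩ := Ideal.mem_span_singleton'.1 hm
      exact Subtype.ext (e_zero good _ (by split_ifs <;> simp) u)

end Pool.Agent.Results.MP_eb0abf_al.Cex
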